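import Pool.Agent.Helper49.LG.KeyTwo

/-!
# The linear algebra of LG-KEY for two-vectors, abstract form: the theorem
-/

set_option autoImplicit false

namespace Pool.Agent.Helper49.LG

open scoped BigOperators
open Pool.Agent.Helper8.LG (exists_minor)
open Pool.Agent.Helper74.LG (scl scl_apply scl_inj Trans left_rows_le sum_single_smul det_tri
  det_mem exists_basis_part cols li_cols)

/-- the syzygies -/
def sy {E σ R Q : Type*} [Field E] (x : σ → E) (C : Q → σ → R → E) (s : Q × σ × σ) : R → E :=
  x s.2.1 • C s.1 s.2.2 - x s.2.2 • C s.1 s.2.1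

/-- A linearly independent family of the right size in a span. -/
theorem span_of_li {E V S K : Type*} [Field E] [AddCommGroup V] [Module E V] [Fintype K]
    (v v' : K → V) (hv : LinearIndependent E v) (hv' : LinearIndependent E v')
    (h : ∀ k, v' k ∈ Submodule.span E (Set.range v)) (u : S → V)
    (hu : ∀ s, u s ∈ Submodule.span E (Set.range v)) (s : S) :
    u s ∈ Submodule.span E (Set.range v') := by
  have hle : Submodule.span E (Set.range v') ≤ Submodule.span E (Set.range v) := by
    rw [Submodule.span_le]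
    rintro _ ⟨k, rfl⟩
    exact h k
  have hfin : FiniteDimensional E (Submodule.span E (Set.range v)) :=
    FiniteDimensional.span_of_finite E (Set.finite_range v)
  have heq := Submodule.eq_of_le_of_finrank_eq hle (by
    rw [finrank_span_eq_card hv, finrank_span_eq_card hv'])
  rw [heq]
  exact hu s

/-- Linear independence from a non-zero minor. -/
theorem li_of_minor {E R κ : Type*} [Field E] [Fintype κ] [DecidableEq κ] (v : κ → R → E)
    (r : κ → R) (h : Matrix.det (Matrix.of fun s t => v t (r s)) ≠ 0) :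
    LinearIndependent E v := by
  have h1 : LinearIndependent E (Matrix.of fun s t => v t (r s)).col :=
    Matrix.linearIndependent_cols_of_det_ne_zero h
  have h2 : (Matrix.of fun s t => v t (r s)).col = (LinearMap.funLeft E E r) ∘ v := rfl
  rw [h2] at h1
  exact LinearIndependent.of_comp _ h1

/-- The two-vector version of the linear algebra of the key lemma. -/
theorem key_two_abs {E : Type*} [Field E] {σ ρ ι Q P : Type*} [Fintype σ] [DecidableEq σ]
    [Fintype ρ] [Fintype ι] [DecidableEq ι] [Finite Q] [Fintype P] (d : ι → ℕ)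
    (Z : Finset ρ) (x : σ → E) (i₀ j₁ : σ) (hx : x i₀ = 1) (hj : j₁ ≠ i₀)
    (eul : σ ⊕ ρ → E) (C : Q → σ → σ ⊕ ρ → E) (cvr : ι → σ ⊕ ρ → E)
    (heul : eul (Sum.inl i₀) ≠ 0)
    (hz1 : ∀ i ∈ Z, eul (Sum.inr i) = 0) (hz2 : ∀ q l, ∀ i ∈ Z, C q l (Sum.inr i) = 0)
    (hz3 : ∀ i', ∀ i ∈ Z, cvr i' (Sum.inr i) = 0)
    (lam : (σ ⊕ ρ → E) →ₗ[E] (ι → E)) (hl1 : lam eul = 0) (hl2 : ∀ s, lam (sy x C s) = 0)
    (g : ι → E) (hg : ∀ i, g i ≠ 0) (hl3 : ∀ i, lam (cvr i) = Pi.single i (g i))
    (Cm : P → σ → E) (w : ℕ)
    (hm : ∀ (r : Fin (w + 2) → σ) (c : Fin (w + 2) → P),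
      Matrix.det (Matrix.of fun s t => Cm (c t) (r s)) = 0)
    (hC1 : (fun l => eul (Sum.inl l)) ∈ Submodule.span E (Set.range Cm))
    (hC2 : ∀ s, (fun l => sy x C s (Sum.inl l)) ∈ Submodule.span E (Set.range Cm))
    (hC3 : ∀ i, (fun l => cvr i (Sum.inl l)) ∈ Submodule.span E (Set.range Cm))
    (hw1 : 2 * w + 1 + Fintype.card ρ ≤ ∑ i, d i + Z.card + Fintype.card ι)
    (hw2 : w + 2 ≤ ∑ i, d i) :
    ∃ δ : σ → E, (∃ j l, x j * δ l - x l * δ j ≠ 0) ∧
      ∀ (O : ValuationSubring E) (Δ c : E) (eul' : σ ⊕ ρ → E)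
      (syz' : Q × σ × σ → σ ⊕ ρ → E) (cvr' : ι → σ ⊕ ρ → E), c ≠ 0 → c⁻¹ ∈ O →
      (∀ l, x l / c ∈ O) → Δ ∈ O → Trans d c eul eul' (sy x C) syz' cvr cvr' →
      (∀ l, Δ * eul' l ∈ O) → (∀ s l, Δ * syz' s l ∈ O) → (∀ i l, Δ * cvr' i l ∈ O) →
      ∀ j l, Δ ^ (Fintype.card σ + Fintype.card ρ) * (x j * δ l - x l * δ j) ∈ O := by
  classical
  have heul0 : eul ≠ 0 := fun h => heul (by rw [h]; rfl)
  obtain ⟨b, hb0, hbli, hbsp⟩ := exists_basis_part (E := E) eul heul0 (sy x C)
  have : Finite (Q × σ × σ) := inferInstance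
  let K := {s : Q × σ × σ // some s ∈ b}
  have hKfin : Fintype K := Fintype.ofFinite K
  let f : K → Q × σ × σ := Subtype.val
  let emb : Option K → b := fun o => o.elim ⟨none, hb0⟩ fun k => ⟨some k.1, k.2⟩
  have hemb : Function.Injective emb := by
    intro o o' h
    rcases o with _ | k <;> rcases o' with _ | k'
    · rfl
    · exact absurd (congrArg Subtype.val h) (by simp [emb])
    · exact absurd (congrArg Subtype.val h) (by simp [emb])
    · have h1 := congrArg Subtype.val h
      have h2 : k.1 = k'.1 := Option.some_injective _ h1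
      rw [Subtype.ext h2]
  have hfli : LinearIndependent E
      (fun o : Option K => o.elim eul fun k => sy x C (f k)) := by
    have h1 := hbli.comp emb hemb
    have h2 : (fun o : b => (o : Option _).elim eul (sy x C)) ∘ emb =
        fun o : Option K => o.elim eul fun k => sy x C (f k) := by
      funext o
      rcases o with _ | k <;> rfl
    rwa [h2] at h1
  have hfsp : ∀ s, sy x C s ∈ Submodule.span E
      (Set.range fun o : Option K => o.elim eul fun k => sy x C (f k)) := by
    intro s
    refine Submodule.span_mono ?_ (hbsp s)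
    rintro _ ⟨⟨o, ho⟩, rfl⟩
    rcases o with _ | s'
    · exact ⟨none, rfl⟩
    · exact ⟨some ⟨s', ho⟩, rfl⟩
  have hK : LinearIndependent E (kc f eul (sy x C) cvr) := by
    have h1 := (li_cols b eul (sy x C) cvr lam hl1 hl2 g hg hl3 hbli).comp (Sum.map emb id)
      (hemb.sumMap Function.injective_id)
    have h2 : cols b eul (sy x C) cvr ∘ Sum.map emb id = kc f eul (sy x C) cvr := by
      funext t
      rcases t with (_ | k) | i <;> rfl
    rwa [h2] at h1
  obtain ⟨r, hrinj, hrdet⟩ := exists_minor _ hK
  have hrZ : ∀ s i, r s = Sum.inr i → i ∉ Z := by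
    intro s i hs hi
    apply hrdet
    refine Matrix.det_eq_zero_of_row_eq_zero s fun t => ?_
    rw [Matrix.of_apply, hs]
    rcases t with o | i'
    · rcases o with _ | k
      · exact hz1 i hi
      · change sy x C (f k) (Sum.inr i) = 0
        simp [sy, hz2 _ _ i hi]
    · exact hz3 i' i hi
  -- counting
  have hn' : nlft r ≤ w + 1 := by
    refine left_rows_le Cm w hm (fun t l => kc f eul (sy x C) cvr t (Sum.inl l)) ?_
      _ hrdet _ (fun s => Sum.elim id (fun _ => i₀) (r s)) ?_
    · rintro (o | i)
      · rcases o with _ | k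
        · exact hC1
        · exact hC2 (f k)
      · exact hC3 i
    · intro s hs t
      rw [Finset.mem_filter] at hs
      rcases h : r s with l | i
      · simp [h]
      · rw [h] at hs
        simp at hs
  have hq' : (Finset.univ.filter fun s => ¬ (r s).isLeft = true).card + Z.card ≤
      Fintype.card ρ := by
    have h1 : (Finset.univ.filter fun s => ¬ (r s).isLeft = true).image r ⊆
        (Finset.univ \ Z).map ⟨Sum.inr, Sum.inr_injective⟩ := by
      intro y hy
      rw [Finset.mem_image] at hy
      obtain ⟨s, hs, rfl⟩ := hy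
      rw [Finset.mem_filter] at hs
      rcases h : r s with l | i
      · rw [h] at hs
        simp at hs
      · rw [Finset.mem_map]
        exact ⟨i, Finset.mem_sdiff.2 ⟨Finset.mem_univ i, hrZ s i h⟩, rfl⟩
    have h2 := Finset.card_le_card h1
    rw [Finset.card_image_of_injective _ hrinj, Finset.card_map,
      Finset.card_sdiff_of_subset (Finset.subset_univ Z), Finset.card_univ] at h2
    have h3 : Z.card ≤ Fintype.card ρ := Finset.card_le_univ Z
    omega
  have hcard : Fintype.card K + 1 + Fintype.card ι =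
      nlft r + (Finset.univ.filter fun s => ¬ (r s).isLeft = true).card := by
    rw [← Fintype.card_option, ← Fintype.card_sum, ← Finset.card_univ (α := Option K ⊕ ι)]
    exact (Finset.card_filter_add_card_filter_not _).symm
  obtain ⟨k', hk'⟩ : ∃ k', Fintype.card σ + Fintype.card ρ =
      Fintype.card (Option K ⊕ ι) + k' := by
    apply Nat.exists_eq_add_of_le
    rw [← Fintype.card_sum]
    exact Fintype.card_le_of_injective r hrinj
  by_cases hne : Nonempty K
  · -- one syzygy is varied
    obtain ⟨k₁⟩ := hne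
    set q₁ := (f k₁).1 with hq₁
    set M := Matrix.of fun s t => kc f eul (sy x C) cvr t (r s) with hM
    set t₁ : Option K ⊕ ι := Sum.inl (some k₁) with ht₁
    have hup : ∀ j l, Matrix.det (Matrix.of fun s t =>
        kc (Function.update f k₁ (q₁, j, l)) eul (sy x C) cvr t (r s)) =
        x j * Matrix.det (M.updateCol t₁ fun s => C q₁ l (r s)) -
          x l * Matrix.det (M.updateCol t₁ fun s => C q₁ j (r s)) := by
      intro j l
      have h1 : (Matrix.of fun s t =>
          kc (Function.update f k₁ (q₁, j, l)) eul (sy x C) cvr t (r s)) =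
          M.updateCol t₁ ((x j • fun s => C q₁ l (r s)) + (-x l) • fun s => C q₁ j (r s)) := by
        ext s t
        rw [Matrix.updateCol_apply]
        by_cases ht : t = t₁
        · rw [if_pos ht, ht]
          have h2 : kc (Function.update f k₁ (q₁, j, l)) eul (sy x C) cvr t₁ =
              sy x C (q₁, j, l) := by
            change sy x C (Function.update f k₁ (q₁, j, l) k₁) = _
            rw [Function.update_self]
          rw [Matrix.of_apply, h2]
          simp only [sy, Pi.sub_apply, Pi.add_apply, Pi.smul_apply, smul_eq_mul]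
          ring
        · rw [if_neg ht, hM, Matrix.of_apply, Matrix.of_apply]
          rcases t with (_ | k) | i
          · rfl
          · have h3 : k ≠ k₁ := fun h => ht (by rw [h])
            change sy x C (Function.update f k₁ (q₁, j, l) k) _ = sy x C (f k) _
            rw [Function.update_of_ne h3]
          · rfl
      rw [h1, Matrix.det_updateCol_add, Matrix.det_updateCol_smul, Matrix.det_updateCol_smul]
      ring
    refine ⟨fun l => Matrix.det (M.updateCol t₁ fun s => C q₁ l (r s)),
      ⟨(f k₁).2.1, (f k₁).2.2, ?_⟩, ?_⟩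
    · rw [← hup]
      have h1 : ((q₁, (f k₁).2.1, (f k₁).2.2) : Q × σ × σ) = f k₁ := rfl
      rw [h1, Function.update_eq_self]
      exact hrdet
    · intro O Δ c eul' syz' cvr' hc hci _ hΔ hTr he1 he2 he3 j l
      rw [← hup]
      set f' := Function.update f k₁ (q₁, j, l) with hf'
      by_cases h0 : Matrix.det (Matrix.of fun s t => kc f' eul (sy x C) cvr t (r s)) = 0
      · rw [h0, mul_zero]
        exact zero_mem O
      · have hli' : LinearIndependent E (kc f' eul (sy x C) cvr) := li_of_minor _ r h0
        have hfli' : LinearIndependent E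
            (fun o : Option K => o.elim eul fun k => sy x C (f' k)) :=
          hli'.comp Sum.inl Sum.inl_injective
        have hfsp' : ∀ s, sy x C s ∈ Submodule.span E
            (Set.range fun o : Option K => o.elim eul fun k => sy x C (f' k)) := by
          refine span_of_li _ _ hfli hfli' ?_ (sy x C) hfsp
          rintro (_ | k)
          · exact Submodule.subset_span ⟨none, rfl⟩
          · exact hfsp _
        obtain ⟨N, hN1, hN2⟩ := k_minor d f' eul (sy x C) cvr hfsp' r O Δ c eul' syz' cvr' hc
          hTr he1 he2 he3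
        obtain ⟨m, hm'⟩ : ∃ m, ∑ i, d i = nlft r + Fintype.card K + m :=
          Nat.exists_eq_add_of_le (by omega)
        rw [hm', pow_add, mul_comm _ N, mul_comm (c ^ (nlft r + Fintype.card K)) (c ^ m),
          ← mul_assoc] at hN2
        have hN3 := mul_right_cancel₀ (pow_ne_zero _ hc) hN2
        have h1 : Matrix.det (Matrix.of fun s t => kc f' eul (sy x C) cvr t (r s)) =
            c⁻¹ ^ m * N := by
          rw [← hN3, mul_comm, mul_assoc, ← mul_pow, mul_inv_cancel₀ hc, one_pow, mul_one]
        rw [h1, hk', pow_add]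
        have h2 : Δ ^ Fintype.card (Option K ⊕ ι) * Δ ^ k' * (c⁻¹ ^ m * N) =
            Δ ^ k' * c⁻¹ ^ m * (Δ ^ Fintype.card (Option K ⊕ ι) * N) := by ring
        rw [h2]
        exact mul_mem (mul_mem (pow_mem hΔ _) (pow_mem hci _)) hN1
  · -- no syzygy
    have hK0 : Fintype.card K = 0 := by
      rw [Fintype.card_eq_zero_iff]
      exact not_nonempty_iff.1 hne
    set G := Matrix.det (Matrix.of fun s t => kc f eul (sy x C) cvr t (r s)) with hG
    refine ⟨Pi.single j₁ G, ⟨i₀, j₁, ?_⟩, ?_⟩
    · rw [Pi.single_eq_same, Pi.single_eq_of_ne hj.symm, hx, one_mul, mul_zero, sub_zero]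
      exact hrdet
    · intro O Δ c eul' syz' cvr' hc hci hxc hΔ hTr he1 he2 he3
      obtain ⟨N, hN1, hN2⟩ := k_minor d f eul (sy x C) cvr hfsp r O Δ c eul' syz' cvr' hc
        hTr he1 he2 he3
      obtain ⟨m, hm'⟩ : ∃ m, ∑ i, d i = nlft r + Fintype.card K + 1 + m :=
        Nat.exists_eq_add_of_le (by omega)
      rw [hm', add_assoc _ 1 m, pow_add, mul_comm _ N,
        mul_comm (c ^ (nlft r + Fintype.card K)) (c ^ (1 + m)), ← mul_assoc] at hN2
      have hN3 := mul_right_cancel₀ (pow_ne_zero _ hc) hN2
      have h1 : G * c = c⁻¹ ^ m * N := by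
        rw [← hN3, pow_add, pow_one]
        have h2 : c⁻¹ ^ m * c ^ m = 1 := by rw [← mul_pow, inv_mul_cancel₀ hc, one_pow]
        calc G * c = G * c * (c⁻¹ ^ m * c ^ m) := by rw [h2, mul_one]
          _ = _ := by ring
      have hGx : ∀ l, Δ ^ (Fintype.card σ + Fintype.card ρ) * (G * x l) ∈ O := by
        intro l
        have h2 : G * x l = c⁻¹ ^ m * N * (x l / c) := by
          rw [← h1]
          field_simp
        rw [h2, hk', pow_add]
        have h3 : Δ ^ Fintype.card (Option K ⊕ ι) * Δ ^ k' * (c⁻¹ ^ m * N * (x l / c)) =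
            Δ ^ k' * c⁻¹ ^ m * (x l / c) * (Δ ^ Fintype.card (Option K ⊕ ι) * N) := by ring
        rw [h3]
        exact mul_mem (mul_mem (mul_mem (pow_mem hΔ _) (pow_mem hci _)) (hxc l)) hN1
      have hGx' : ∀ j l, Δ ^ (Fintype.card σ + Fintype.card ρ) *
          (x j * (Pi.single j₁ G : σ → E) l) ∈ O := by
        intro j l
        by_cases hl : l = j₁
        · rw [hl, Pi.single_eq_same, mul_comm (x j) G]
          exact hGx j
        · rw [Pi.single_eq_of_ne hl, mul_zero, mul_zero]
          exact zero_mem O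
      intro j l
      rw [mul_sub]
      exact sub_mem (hGx' j l) (hGx' l j)

end Pool.Agent.Helper49.LG
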