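import Pool.Agent.Helper49.LG.Killer

/-!
# Lines and generic forms

`gen_line`: a line is not contained in all the `F_i = 0`. `no_two`: the `F_i` do not all vanish in
at most two points of a line.
-/

set_option autoImplicit false

namespace Pool.Agent.Helper49.LG

open scoped BigOperators
open Pool.Agent.Helper8.LG

/-- A binary form which vanishes at the points `p + n q` is zero. -/
theorem zero_of_nat {E : Type*} [Field E] [CharZero E] (m : ℕ) (f : Fin (m + 1) → E)
    (p₁ p₂ q₁ q₂ : E) (hdet : p₁ * q₂ - p₂ * q₁ ≠ 0)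
    (h : ∀ n : ℕ, ∑ r : Fin (m + 1), f r * ((p₁ + n * q₁) ^ (m - r) * (p₂ + n * q₂) ^ (r : ℕ)) = 0)
    (r : Fin (m + 1)) : f r = 0 := by
  classical
  set P : Polynomial E := ∑ r : Fin (m + 1), Polynomial.C (f r) * Polynomial.X ^ (r : ℕ) with hP
  have hcoeff : P.coeff r = f r := by
    rw [hP, Polynomial.finsetSum_coeff]
    rw [Finset.sum_eq_single r]
    · rw [Polynomial.coeff_C_mul, Polynomial.coeff_X_pow_self, mul_one]
    · intro s _ hs
      rw [Polynomial.coeff_C_mul, Polynomial.coeff_X_pow, if_neg, mul_zero]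
      intro h1
      exact hs (Fin.ext h1.symm)
    · intro h1
      exact absurd (Finset.mem_univ r) h1
  -- the good `n`
  have hbad : {n : ℕ | p₁ + n * q₁ = 0}.Finite := by
    refine Set.Subsingleton.finite ?_
    intro n hn n' hn'
    have h1 : (n : E) * q₁ = n' * q₁ := by
      have h2 : p₁ + n * q₁ = p₁ + n' * q₁ := (show p₁ + n * q₁ = 0 from hn).trans
        (show p₁ + n' * q₁ = 0 from hn').symm
      exact add_left_cancel h2
    by_cases hq : q₁ = 0
    · exfalso
      have h3 : p₁ = 0 := by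
        have h2 : p₁ + n * q₁ = 0 := hn
        rwa [hq, mul_zero, add_zero] at h2
      apply hdet
      rw [hq, h3]
      ring
    · exact Nat.cast_injective (mul_right_cancel₀ hq h1)
  have hroot : ∀ n : ℕ, p₁ + n * q₁ ≠ 0 →
      P.IsRoot ((p₂ + n * q₂) / (p₁ + n * q₁)) := by
    intro n hn
    rw [Polynomial.IsRoot, hP, Polynomial.eval_finsetSum]
    have h1 : ∑ r : Fin (m + 1), f r * ((p₂ + n * q₂) / (p₁ + n * q₁)) ^ (r : ℕ) =
        (∑ r : Fin (m + 1), f r * ((p₁ + n * q₁) ^ (m - r) * (p₂ + n * q₂) ^ (r : ℕ))) /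
          (p₁ + n * q₁) ^ m := by
      rw [Finset.sum_div]
      refine Finset.sum_congr rfl fun s _ => ?_
      have h2 : (p₁ + n * q₁) ^ m = (p₁ + n * q₁) ^ (m - s) * (p₁ + n * q₁) ^ (s : ℕ) := by
        rw [← pow_add]
        congr 1
        have := s.2
        omega
      rw [h2, div_pow]
      have h3 : (p₁ + n * q₁) ^ (m - s) ≠ 0 := pow_ne_zero _ hn
      have h4 : (p₁ + n * q₁) ^ (s : ℕ) ≠ 0 := pow_ne_zero _ hn
      field_simp
    simp only [Polynomial.eval_mul, Polynomial.eval_C, Polynomial.eval_pow, Polynomial.eval_X]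
    rw [h1, h n, zero_div]
  have hinj : Set.InjOn (fun n : ℕ => (p₂ + n * q₂) / (p₁ + n * q₁)) {n | p₁ + n * q₁ = 0}ᶜ := by
    intro n hn n' hn' hnn
    have hn1 : p₁ + n * q₁ ≠ 0 := hn
    have hn2 : p₁ + n' * q₁ ≠ 0 := hn'
    simp only at hnn
    rw [div_eq_div_iff hn1 hn2] at hnn
    have h1 : ((n : E) - n') * (p₁ * q₂ - p₂ * q₁) = 0 := by linear_combination hnn
    rcases mul_eq_zero.1 h1 with h2 | h2
    · exact Nat.cast_injective (sub_eq_zero.1 h2)
    · exact absurd h2 hdet
  have hP0 : P = 0 := by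
    refine Polynomial.eq_zero_of_infinite_isRoot P ?_
    refine Set.Infinite.mono ?_ ((hbad.infinite_compl).image hinj)
    rintro _ ⟨n, hn, rfl⟩
    exact hroot n hn
  rw [← hcoeff, hP0, Polynomial.coeff_zero]

/-- A line is not contained in all the hypersurfaces. -/
theorem gen_line {E : Type*} [Field E] [CharZero E] {σ ι τ : Type*} [Fintype σ] [DecidableEq σ]
    [Fintype ι] [DecidableEq ι] [Fintype τ] (d : ι → ℕ)
    (a : (i : ι) → Sym σ (d i) → E) (D : Ix σ d → Derivation ℤ E E)
    (jj : τ → Ix σ d) (θ : τ → Ix σ d → E) (hD : Dual d a D jj θ) (α β : σ) (hαβ : α ≠ β)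
    (p q : σ → E) (hpα : p α = 1) (hpβ : p β = 0) (hqα : q α = 0) (hqβ : q β = 1)
    (hcount : 2 * Fintype.card σ + Fintype.card τ ≤ ∑ i, (d i + 1) + 3) :
    ∃ (i : ι) (n : ℕ), form (a i) (fun l => p l + n * q l) ≠ 0 := by
  classical
  by_contra hcon
  push Not at hcon
  have hcard : Fintype.card {l : σ // l ≠ α ∧ l ≠ β} + 2 = Fintype.card σ := by
    have h1 : Fintype.card {l : σ // l ≠ α ∧ l ≠ β} =
        (Finset.univ.filter fun l : σ => l ≠ α ∧ l ≠ β).card := Fintype.card_subtype _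
    have h2 : (Finset.univ.filter fun l : σ => l ≠ α ∧ l ≠ β) = Finset.univ \ {α, β} := by
      ext l
      simp
    rw [h1, h2, Finset.card_sdiff_of_subset (Finset.subset_univ _), Finset.card_pair hαβ,
      Finset.card_univ]
    have h3 : 2 ≤ Fintype.card σ := by
      rw [← Finset.card_pair hαβ]
      exact Finset.card_le_univ _
    omega
  obtain ⟨f, δ, ⟨i, r, hfr⟩, hδ, hform⟩ := exists_killer d a D jj θ hD α β
    (κ := {l : σ // l ≠ α ∧ l ≠ β} × Bool) (fun m => if m.2 then p m.1 else q m.1) (by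
      rw [Fintype.card_prod, Fintype.card_bool]
      omega)
  have hδp : ∀ l, δ (p l) = 0 := by
    intro l
    by_cases h1 : l = α
    · rw [h1, hpα, Derivation.map_one_eq_zero]
    · by_cases h2 : l = β
      · rw [h2, hpβ, map_zero]
      · exact hδ (⟨l, h1, h2⟩, true)
  have hδq : ∀ l, δ (q l) = 0 := by
    intro l
    by_cases h1 : l = α
    · rw [h1, hqα, map_zero]
    · by_cases h2 : l = β
      · rw [h2, hqβ, Derivation.map_one_eq_zero]
      · exact hδ (⟨l, h1, h2⟩, false)
  apply hfr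
  refine zero_of_nat (d i) (f i) (p α) (p β) (q α) (q β) ?_ ?_ r
  · rw [hpα, hpβ, hqα, hqβ]
    simp
  · intro n
    rw [← hform i (fun l => p l + n * q l), hcon i n, map_zero]
    intro l
    rw [map_add, hδp, zero_add, Derivation.leibniz, hδq, smul_zero, zero_add,
      Derivation.map_natCast, smul_zero]

/-- The forms do not all vanish in at most two points `p`, `q` of a line. -/
theorem no_two {E : Type*} [Field E] [CharZero E] {σ ι τ : Type*} [Fintype σ] [DecidableEq σ]
    [Fintype ι] [DecidableEq ι] [Fintype τ] (d : ι → ℕ)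
    (a : (i : ι) → Sym σ (d i) → E) (D : Ix σ d → Derivation ℤ E E)
    (jj : τ → Ix σ d) (θ : τ → Ix σ d → E) (hD : Dual d a D jj θ)
    (p q : σ → E) (α β : σ) (hdet : p α * q β - p β * q α ≠ 0)
    (ip iq : σ) (hp : p ip = 1) (hq : q iq = 1) (U : Finset ι) (e : ι → E) (c : ι → ℕ)
    (he : ∀ i ∉ U, e i = 0)
    (h : ∀ (i : ι) (n : ℕ), form (a i) (fun l => p l + n * q l) = e i * (n : E) ^ c i)
    (hcount : 2 * Fintype.card σ + U.card + Fintype.card τ < ∑ i, (d i + 1) + 2) : False := by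
  classical
  have hcard : ∀ j : σ, Fintype.card {l : σ // l ≠ j} + 1 = Fintype.card σ := by
    intro j
    have h1 : Fintype.card {l : σ // l ≠ j} = Fintype.card σ - 1 := by
      rw [Fintype.card_subtype_compl (fun l => l = j)]
      simp
    have h2 : 0 < Fintype.card σ := Fintype.card_pos_iff.2 ⟨j⟩
    omega
  obtain ⟨f, δ, ⟨i, r, hfr⟩, hδ, hform⟩ := exists_killer d a D jj θ hD α β
    (κ := ({l : σ // l ≠ ip} ⊕ {l : σ // l ≠ iq}) ⊕ U)
    (Sum.elim (Sum.elim (fun l => p l) fun l => q l) fun i => e i) (by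
      rw [Fintype.card_sum, Fintype.card_sum, Fintype.card_coe]
      have h1 := hcard ip
      have h2 := hcard iq
      omega)
  have hδp : ∀ l, δ (p l) = 0 := by
    intro l
    by_cases h1 : l = ip
    · rw [h1, hp, Derivation.map_one_eq_zero]
    · exact hδ (Sum.inl (Sum.inl ⟨l, h1⟩))
  have hδq : ∀ l, δ (q l) = 0 := by
    intro l
    by_cases h1 : l = iq
    · rw [h1, hq, Derivation.map_one_eq_zero]
    · exact hδ (Sum.inl (Sum.inr ⟨l, h1⟩))
  have hδe : ∀ i, δ (e i) = 0 := by
    intro i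
    by_cases h1 : i ∈ U
    · exact hδ (Sum.inr ⟨i, h1⟩)
    · rw [he i h1, map_zero]
  apply hfr
  refine zero_of_nat (d i) (f i) (p α) (p β) (q α) (q β) hdet ?_ r
  intro n
  rw [← hform i (fun l => p l + n * q l), h i n, Derivation.leibniz, hδe, smul_zero, add_zero]
  · have h1 : δ ((n : E) ^ c i) = 0 := by
      rw [Derivation.leibniz_pow, Derivation.map_natCast, smul_zero, smul_zero]
    rw [h1, smul_zero]
  · intro l
    rw [map_add, hδp, zero_add, Derivation.leibniz, hδq, smul_zero, zero_add,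
      Derivation.map_natCast, smul_zero]

end Pool.Agent.Helper49.LG
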