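import Pool.Agent.Helper49.LG.BoundLine
import Pool.Agent.Helper49.LG.GenLine

/-!
# Points of the intersection are bounded

If all `F_i(x) = 0` and the two-vector `P = x ∧ δ` is bounded, then `x` is bounded: some `F_i` is
not zero on the line of `P`, and the leading coefficient of the restriction clears the denominators.
-/

set_option autoImplicit false

namespace Pool.Agent.Helper49.LG

open scoped BigOperators
open Pool.Agent.Helper8.LG

/-- A common denominator of a finite-dimensional space and a finite set. -/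
theorem exists_den {k L : Type*} [Field k] [Field L] [Algebra k L] (R : Subring L)
    [IsFractionRing R L] (hk : ∀ c : k, algebraMap k L c ∈ R) (V : Submodule k L)
    [FiniteDimensional k V] (S : Set L) (hS : S.Finite) :
    ∃ Δ : L, Δ ≠ 0 ∧ Δ ∈ R ∧ (∀ f ∈ V, Δ * f ∈ R) ∧ ∀ f ∈ S, Δ * f ∈ R := by
  classical
  obtain ⟨s, hs⟩ := (Submodule.fg_iff_finiteDimensional V).2 inferInstance
  obtain ⟨b, hb⟩ := IsLocalization.exist_integer_multiples_of_finset (nonZeroDivisors R)
    (s ∪ hS.toFinset : Finset L)
  have hb' : ∀ f ∈ s ∪ hS.toFinset, ((b : R) : L) * f ∈ R := by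
    intro f hf
    obtain ⟨r, hr⟩ := hb f hf
    have h1 : ((b : R) : L) * f = (r : L) := by
      rw [show (r : L) = algebraMap R L r from rfl, hr]
      rfl
    rw [h1]
    exact r.2
  refine ⟨((b : R) : L), ?_, (b : R).2, ?_, ?_⟩
  · intro h
    exact nonZeroDivisors.ne_zero b.2 (Subtype.ext h)
  · intro f hf
    rw [← hs] at hf
    induction hf using Submodule.span_induction with
    | mem x hx => exact hb' x (Finset.mem_union_left _ hx)
    | zero => rw [mul_zero]; exact zero_mem R
    | add x y _ _ hx hy => rw [mul_add]; exact add_mem hx hy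
    | smul c x _ hx =>
      rw [Algebra.smul_def, mul_left_comm]
      exact mul_mem (hk c) hx
  · intro f hf
    exact hb' f (Finset.mem_union_right _ (hS.mem_toFinset.2 hf))

/-- the restriction of a form to a line, as a polynomial -/
noncomputable def lineP {L σ : Type*} [CommSemiring L] [Fintype σ] [DecidableEq σ] {n : ℕ}
    (a : Sym σ n → L) (p q : σ → L) : Polynomial L :=
  form (fun J => Polynomial.C (a J)) fun l => Polynomial.C (p l) + Polynomial.X * Polynomial.C (q l)

theorem mon_map {R R' : Type*} [CommSemiring R] [CommSemiring R'] (f : R →+* R') {σ : Type*}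
    {n : ℕ} (x : σ → R) (J : Sym σ n) : f (mon x J) = mon (fun l => f (x l)) J := by
  unfold mon
  rw [map_multiset_prod, Multiset.map_map]
  rfl

theorem form_map {R R' : Type*} [CommSemiring R] [CommSemiring R'] (f : R →+* R') {σ : Type*}
    [Fintype σ] [DecidableEq σ] {n : ℕ} (a : Sym σ n → R) (x : σ → R) :
    f (form a x) = form (fun J => f (a J)) (fun l => f (x l)) := by
  unfold form
  rw [map_sum]
  exact Finset.sum_congr rfl fun J _ => by rw [map_mul, mon_map]

theorem lineP_eval {L σ : Type*} [CommRing L] [Fintype σ] [DecidableEq σ] {n : ℕ}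
    (a : Sym σ n → L) (p q : σ → L) (z : L) :
    (lineP a p q).eval z = form a fun l => p l + z * q l := by
  have h := form_map (Polynomial.evalRingHom z) (fun J => Polynomial.C (a J))
    (fun l => Polynomial.C (p l) + Polynomial.X * Polynomial.C (q l))
  simp only [Polynomial.coe_evalRingHom, Polynomial.eval_add, Polynomial.eval_mul,
    Polynomial.eval_C, Polynomial.eval_X] at h
  exact h

theorem lineP_map {R L σ : Type*} [CommRing R] [CommRing L] (f : R →+* L) [Fintype σ]
    [DecidableEq σ] {n : ℕ} (a : Sym σ n → R) (p q : σ → R) :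
    (lineP a p q).map f = lineP (fun J => f (a J)) (fun l => f (p l)) fun l => f (q l) := by
  have h := form_map (Polynomial.mapRingHom f) (fun J => Polynomial.C (a J))
    (fun l => Polynomial.C (p l) + Polynomial.X * Polynomial.C (q l))
  simp only [Polynomial.coe_mapRingHom, Polynomial.map_add, Polynomial.map_mul,
    Polynomial.map_C, Polynomial.map_X] at h
  exact h

theorem mon_mul {R σ : Type*} [CommMonoid R] {n : ℕ} (c : R) (x : σ → R) (J : Sym σ n) :
    mon (fun l => c * x l) J = c ^ n * mon x J := by
  unfold mon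
  rw [Multiset.prod_map_mul, Multiset.map_const', Multiset.prod_replicate, Sym.card_coe]

theorem form_mul {R σ : Type*} [CommSemiring R] [Fintype σ] [DecidableEq σ] {n : ℕ} (b c : R)
    (a : Sym σ n → R) (x : σ → R) :
    form (fun J => b * a J) (fun l => c * x l) = b * c ^ n * form a x := by
  unfold form
  rw [Finset.mul_sum]
  exact Finset.sum_congr rfl fun J _ => by rw [mon_mul]; ring

theorem lineP_scale {L σ : Type*} [CommRing L] [Fintype σ] [DecidableEq σ] {n : ℕ}
    (c : L) (a : Sym σ n → L) (p q : σ → L) :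
    lineP (fun J => c * a J) (fun l => c * p l) (fun l => c * q l) =
      Polynomial.C (c ^ (n + 1)) * lineP a p q := by
  unfold lineP
  have h1 : (fun J => Polynomial.C (c * a J)) = fun J => Polynomial.C c * Polynomial.C (a J) := by
    funext J
    rw [Polynomial.C_mul]
  have h2 : (fun l => Polynomial.C (c * p l) + Polynomial.X * Polynomial.C (c * q l)) =
      fun l => Polynomial.C c * (Polynomial.C (p l) + Polynomial.X * Polynomial.C (q l)) := by
    funext l
    rw [Polynomial.C_mul, Polynomial.C_mul]
    ring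
  rw [h1, h2, form_mul, Polynomial.C_pow, pow_succ']

/-- The leading coefficient clears the denominator of a root. -/
theorem lead_mem {L σ : Type*} [Field L] [Fintype σ] [DecidableEq σ] {n : ℕ} (R : Subring L)
    (hR : ∀ z : L, IsIntegral R z → z ∈ R) (Δ : L) (a : Sym σ n → L) (p q : σ → L)
    (hΔ0 : Δ ≠ 0)
    (ha : ∀ J, Δ * a J ∈ R) (hp : ∀ l, Δ * p l ∈ R) (hq : ∀ l, Δ * q l ∈ R) (z : L)
    (hz : form a (fun l => p l + z * q l) = 0) (l : σ) :
    Δ ^ (n + 2) * ((lineP a p q).leadingCoeff * (p l + z * q l)) ∈ R := by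
  set Ψ : Polynomial R := lineP (fun J => (⟨Δ * a J, ha J⟩ : R)) (fun l => ⟨Δ * p l, hp l⟩)
    fun l => ⟨Δ * q l, hq l⟩ with hΨ
  have hmap : Ψ.map (algebraMap R L) = Polynomial.C (Δ ^ (n + 1)) * lineP a p q := by
    rw [hΨ, lineP_map, ← lineP_scale]
    rfl
  have hc0 : Δ ^ (n + 1) ≠ 0 := pow_ne_zero _ hΔ0
  have hinj : Function.Injective (algebraMap R L) := Subtype.val_injective
  have hlead : algebraMap R L Ψ.leadingCoeff = Δ ^ (n + 1) * (lineP a p q).leadingCoeff := by
    rw [← Polynomial.leadingCoeff_map_of_injective hinj, hmap, Polynomial.leadingCoeff_mul,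
      Polynomial.leadingCoeff_C]
  have hroot : Polynomial.aeval z Ψ = 0 := by
    rw [Polynomial.aeval_def, Polynomial.eval₂_eq_eval_map, hmap, Polynomial.eval_mul, lineP_eval,
      hz, mul_zero]
  have hint := hR _ (isIntegral_leadingCoeff_smul Ψ z hroot)
  rw [Algebra.smul_def, hlead] at hint
  have hlR : Δ ^ (n + 1) * (lineP a p q).leadingCoeff ∈ R := by
    rw [← hlead]
    exact Ψ.leadingCoeff.2
  have h1 : Δ ^ (n + 2) * ((lineP a p q).leadingCoeff * (p l + z * q l)) =
      Δ ^ (n + 1) * (lineP a p q).leadingCoeff * (Δ * p l) +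
        Δ ^ (n + 1) * (lineP a p q).leadingCoeff * z * (Δ * q l) := by
    ring
  rw [h1]
  exact add_mem (mul_mem hlR (hp l)) (mul_mem hint (hq l))

end Pool.Agent.Helper49.LG
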