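import Pool.Agent.Helper49.LG.Rows
import Pool.Agent.Helper8.LG.Bound

/-! # LG-BOUNDLINE: the two-vectors lie in a finite-dimensional space

Copy of the first round of `Helper8.LG.bounded`, with `key_line` instead of `key`. -/

set_option autoImplicit false

namespace Pool.Agent.Helper49.LG

open scoped BigOperators
open Pool.Agent.Helper8.LG

private theorem blInv {L : Type*} [Field L] (D : Derivation ℤ L L) (f : L) :
    D f⁻¹ = -(f⁻¹ ^ 2) * D f := by
  have h := Derivation.leibniz_inv D f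
  rw [h, smul_eq_mul]

private theorem blDual {L σ ι τ : Type*} [Field L] [DecidableEq σ] [DecidableEq ι] [Fintype τ]
    (d : ι → ℕ) (a : (i : ι) → Sym σ (d i) → L)
    (D : Ix σ d → Derivation ℤ L L) (jj : τ → Ix σ d) (θ : τ → Ix σ d → L)
    (hD : Dual d a D jj θ) (T : Finset (Ix σ d)) (hT : ∀ j, jj j ∉ T) (q : Ix σ d) (p : T) :
    D q (a p.1.1 p.1.2) = if q = p.1 then 1 else 0 := by
  have h := hD q p.1
  rw [Finset.sum_eq_zero, sub_zero] at h
  · exact h
  · intro j _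
    rw [if_neg]
    rintro h1
    exact hT j (h1 ▸ p.2)

private theorem blStable {k L σ ι τ : Type*} [Field k] [Field L] [Algebra k L]
    [DecidableEq σ] [DecidableEq ι] [Fintype τ]
    (d : ι → ℕ) (a : (i : ι) → Sym σ (d i) → L)
    (D : Ix σ d → Derivation ℤ L L) (jj : τ → Ix σ d) (θ : τ → Ix σ d → L)
    (hD : Dual d a D jj θ) (T : Finset (Ix σ d)) (hT : ∀ j, jj j ∉ T)
    (hDk : ∀ p (c : k), D p (algebraMap k L c) = 0) (p : T) (q : Ix σ d) :
    ∀ f ∈ others (k := k) (fun p : T => a p.1.1 p.1.2) p,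
      D q f ∈ others (k := k) (fun p : T => a p.1.1 p.1.2) p := by
  intro f hf
  have hf' : f ∈ IntermediateField.adjoin k ((fun p : T => a p.1.1 p.1.2) '' {p}ᶜ) := hf
  show D q f ∈ IntermediateField.adjoin k ((fun p : T => a p.1.1 p.1.2) '' {p}ᶜ)
  induction hf' using IntermediateField.adjoin_induction with
  | mem x hx =>
    obtain ⟨r, _, rfl⟩ := hx
    show D q (a r.1.1 r.1.2) ∈ _
    rw [blDual d a D jj θ hD T hT q r]
    split_ifs
    · exact one_mem _
    · exact zero_mem _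
  | algebraMap c =>
    rw [hDk q c]
    exact zero_mem _
  | add x y hx hy hx' hy' =>
    rw [map_add]
    exact add_mem (hx' hx) (hy' hy)
  | inv x hx hx' =>
    rw [blInv]
    exact mul_mem (neg_mem (pow_mem (inv_mem hx) 2)) (hx' hx)
  | mul x y hx hy hx' hy' =>
    rw [Derivation.leibniz, smul_eq_mul, smul_eq_mul]
    exact add_mem (mul_mem hx (hy' hy)) (mul_mem hy (hx' hx))

private theorem blVar {L σ ι τ : Type*} [Field L] [DecidableEq σ] [DecidableEq ι] [Fintype τ]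
    (d : ι → ℕ) (a : (i : ι) → Sym σ (d i) → L)
    (D : Ix σ d → Derivation ℤ L L) (jj : τ → Ix σ d) (θ : τ → Ix σ d → L)
    (hD : Dual d a D jj θ) (T : Finset (Ix σ d)) (hT : ∀ j, jj j ∉ T) (p : T) (q : Ix σ d)
    (R : Subring L) :
    D q (a p.1.1 p.1.2) ∈ R := by
  rw [blDual d a D jj θ hD T hT q p]
  split_ifs
  · exact one_mem _
  · exact zero_mem _

private theorem blVarInv {L σ ι τ : Type*} [Field L] [DecidableEq σ] [DecidableEq ι] [Fintype τ]
    (d : ι → ℕ) (a : (i : ι) → Sym σ (d i) → L)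
    (D : Ix σ d → Derivation ℤ L L) (jj : τ → Ix σ d) (θ : τ → Ix σ d → L)
    (hD : Dual d a D jj θ) (T : Finset (Ix σ d)) (hT : ∀ j, jj j ∉ T) (p : T) (q : Ix σ d)
    (R : Subring L) (hR : (a p.1.1 p.1.2)⁻¹ ∈ R) :
    D q (a p.1.1 p.1.2)⁻¹ ∈ R := by
  rw [blInv]
  exact mul_mem (neg_mem (pow_mem hR 2)) (blVar d a D jj θ hD T hT p q R)

private theorem blLe {k L : Type*} [Field k] [Field L] [Algebra k L] (s : Set L)
    (E₀ : Subfield L) (hk : ∀ c : k, algebraMap k L c ∈ E₀) (S : Set L) (hs : s ⊆ S) :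
    (Algebra.adjoin k s).toSubring ≤ Subring.closure ((E₀ : Set L) ∪ S) := by
  intro f hf
  have hf' : f ∈ Algebra.adjoin k s := hf
  induction hf' using Algebra.adjoin_induction with
  | mem x hx => exact Subring.subset_closure (Or.inr (hs hx))
  | algebraMap c => exact Subring.subset_closure (Or.inl (hk c))
  | add x y hx hy hx' hy' => exact add_mem (hx' hx) (hy' hy)
  | mul x y hx hy hx' hy' => exact mul_mem (hx' hx) (hy' hy)

/-- In one direction the entries of all the two-vectors have bounded poles. -/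
private theorem blDir {L : Type*} [Field L] [CharZero L] {σ ι τ : Type*} [Fintype σ]
    [DecidableEq σ] [Fintype ι] [DecidableEq ι] [Fintype τ]
    (d : ι → ℕ) (hd : ∀ i, 0 < d i)
    (a : (i : ι) → Sym σ (d i) → L) (D : Ix σ d → Derivation ℤ L L)
    (θ : τ → Ix σ d → L) (Z : Finset ι)
    (E₀ : Subfield L) (t : L) (ht : Transcendental E₀ t)
    (hfin : FiniteDimensional (Subfield.closure ((E₀ : Set L) ∪ {t})) L)
    (hE₀ : ∀ p, ∀ f ∈ E₀, D p f ∈ E₀)
    (hDt : ∀ p, D p t ∈ Subring.closure ((E₀ : Set L) ∪ {t}))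
    (S : Set L) (hS : S.Finite) (hSa : ∀ p : Ix σ d, a p.1 p.2 ∈ S)
    (hSθ : ∀ j s, θ j s ∈ S) :
    ∃ Δ : L, Δ ≠ 0 ∧ ∀ (x : σ → L) (P : σ → σ → L),
      (∀ i ∉ Z, form (a i) x ≠ 0) →
      (∀ i ∉ Z, ∀ J : Sym σ (d i),
        IsIntegral (Subring.closure ((E₀ : Set L) ∪ S)) (mon x J / form (a i) x)) →
      KeyP d a D θ Z x P → ∀ j l, Δ * P j l ∈ intCl E₀ t := by
  obtain ⟨Δ, hΔ0, hΔR, hΔS, hΔ⟩ :=
    dir_rows d hd a D θ Z E₀ t ht hfin hE₀ hDt S hS hSa hSθ
  obtain ⟨hDed, hFrac⟩ := intCl_dedekind E₀ t ht hfin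
  refine ⟨Δ ^ (Fintype.card σ + Fintype.card ι + Fintype.card τ), pow_ne_zero _ hΔ0,
    fun x P hne hint hkey j l => ?_⟩
  refine mem_of (intCl E₀ t) _ fun O hO => ?_
  obtain ⟨h1, h2, h3⟩ := hΔ x hne hint O hO
  exact hkey O Δ h1 h2 h3 j l

theorem bounded_line {k L : Type*} [Field k] [Field L] [CharZero L] [Algebra k L]
    {σ ι τ : Type*} [Fintype σ] [DecidableEq σ] [Fintype ι] [DecidableEq ι] [Fintype τ]
    (d : ι → ℕ) (hd : ∀ i, 0 < d i) (a : (i : ι) → Sym σ (d i) → L) (T : Finset (Ix σ d))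
    (hind : AlgebraicIndependent k (fun p : T => a p.1.1 p.1.2))
    (hfin : FiniteDimensional
      (IntermediateField.adjoin k (Set.range fun p : T => a p.1.1 p.1.2)) L)
    (D : Ix σ d → Derivation ℤ L L) (jj : τ → Ix σ d) (θ : τ → Ix σ d → L)
    (hD : Dual d a D jj θ) (hT : ∀ j, jj j ∉ T)
    (hDk : ∀ p (c : k), D p (algebraMap k L c) = 0)
    (Z : Finset ι) (i₀ j₁ : σ) (hj : j₁ ≠ i₀) (w : ℕ)
    (hw1 : 2 * w + 1 + Fintype.card τ ≤ ∑ i, d i + Z.card) (hw2 : w + 2 ≤ ∑ i, d i)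
    (A : Subalgebra k L) (hA : A.FG) :
    ∃ V : Submodule k L, FiniteDimensional k V ∧ ∀ x : σ → L, x i₀ = 1 →
      (∀ i ∈ Z, form (a i) x = 0) → (∀ i ∉ Z, form (a i) x ≠ 0) →
      (∀ i ∉ Z, ∀ J : Sym σ (d i), IsIntegral A (mon x J / form (a i) x)) →
      MinorsVanish D x w →
      ∃ δ : σ → L, (∃ j l, x j * δ l - x l * δ j ≠ 0) ∧ ∀ j l, x j * δ l - x l * δ j ∈ V := by
  classical
  obtain ⟨s, hs⟩ := hA
  set y₀ : T → L := fun p : T => a p.1.1 p.1.2 with hy₀
  set S : Set L := (s : Set L) ∪ (Set.range (fun p : Ix σ d => a p.1 p.2) ∪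
    Set.range fun r : τ × Ix σ d => θ r.1 r.2) with hS
  have hSfin : S.Finite :=
    (s.finite_toSet).union ((Set.finite_range _).union (Set.finite_range _))
  have hSa : ∀ p : Ix σ d, a p.1 p.2 ∈ S := fun p => Or.inr (Or.inl ⟨p, rfl⟩)
  have hSθ : ∀ j s, θ j s ∈ S := fun j s => Or.inr (Or.inr ⟨(j, s), rfl⟩)
  have hk : ∀ (p : T) (c : k), algebraMap k L c ∈ others (k := k) y₀ p := by
    intro p c
    exact IntermediateField.algebraMap_mem _ c
  have hAle : ∀ p : T,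
      A.toSubring ≤ Subring.closure ((others (k := k) y₀ p : Set L) ∪ S) := by
    intro p
    rw [← hs]
    exact blLe (s : Set L) _ (hk p) S Set.subset_union_left
  have htr := others_transcendental (k := k) y₀ hind
  have hof := others_finite (k := k) y₀ hfin
  have hst : ∀ (p : T) (q : Ix σ d), ∀ f ∈ others (k := k) y₀ p,
      D q f ∈ others (k := k) y₀ p :=
    fun p q => blStable d a D jj θ hD T hT hDk p q
  have h1 := fun p : T => blDir d hd a D θ Z (others (k := k) y₀ p) (y₀ p) (htr p).1 (hof p).1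
    (fun q => hst p q) (fun q => blVar d a D jj θ hD T hT p q _) S hSfin hSa hSθ
  have h1' := fun p : T => blDir d hd a D θ Z (others (k := k) y₀ p) (y₀ p)⁻¹ (htr p).2
    (hof p).2 (fun q => hst p q)
    (fun q => blVarInv d a D jj θ hD T hT p q _ (Subring.subset_closure (Or.inr rfl)))
    S hSfin hSa hSθ
  choose Δ₁ hΔ₁ H₁ using h1
  choose Δ₁' hΔ₁' H₁' using h1'
  obtain ⟨V₁, hV₁, hV₁'⟩ := fd y₀ hind hfin Δ₁ Δ₁' hΔ₁ hΔ₁'
  refine ⟨V₁, hV₁, fun x hx hZ hU hint hm => ?_⟩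
  obtain ⟨δ, hδ, hkey⟩ := key_line d hd a D jj θ hD Z x i₀ j₁ hx hj hZ hU w hw1 hw2 hm
  refine ⟨δ, hδ, fun j l => ?_⟩
  have hint' : ∀ p : T, ∀ i ∉ Z, ∀ J : Sym σ (d i),
      IsIntegral (Subring.closure ((others (k := k) y₀ p : Set L) ∪ S))
        (mon x J / form (a i) x) := fun p i hi J =>
    (hint i hi J).map_of_comp_eq (Subring.inclusion (S := A.toSubring) (hAle p))
      (RingHom.id L) rfl
  apply hV₁'
  intro p
  exact ⟨H₁ p x _ hU (hint' p) hkey j l, H₁' p x _ hU (hint' p) hkey j l⟩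

end Pool.Agent.Helper49.LG
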