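import Pool.Agent.Helper49.LG.BoundPt
import Pool.Agent.Helper49.LG.UltraLine
import Pool.Agent.Helper8.LG.Trd
import Pool.Agent.Helper8.LG.Reduce

/-!
# Rational points of the intersection of all the hypersurfaces, over fields
-/

set_option autoImplicit false

namespace Pool.Agent.Helper49.LG

open scoped BigOperators
open Pool.Agent.Helper8.LG

/-- Finitely many normalised points of a line lie in a hypersurface which does not contain it. -/
theorem line_finite {L : Type*} [Field L] {σ : Type*} [Fintype σ] [DecidableEq σ] {n : ℕ}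
    (a : Sym σ n → L) (α β i₀ : σ) (p q : σ → L) (hF : lineP a p q ≠ 0) :
    {x : σ → L | x i₀ = 1 ∧ form a x = 0 ∧ ∀ l, x l = x α * p l + x β * q l}.Finite := by
  classical
  have h1 : {x : σ → L | (x i₀ = 1 ∧ ∀ l, x l = x α * p l + x β * q l) ∧ x α = 0}.Finite := by
    refine Set.Subsingleton.finite ?_
    rintro x ⟨⟨h1, h2⟩, h3⟩ y ⟨⟨h4, h5⟩, h6⟩
    have h7 : x β * q i₀ = 1 := by
      have h8 := h2 i₀
      rw [h1, h3, zero_mul, zero_add] at h8
      exact h8.symm
    have h8 : y β * q i₀ = 1 := by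
      have h9 := h5 i₀
      rw [h4, h6, zero_mul, zero_add] at h9
      exact h9.symm
    have hq : q i₀ ≠ 0 := by
      intro h
      rw [h, mul_zero] at h7
      exact zero_ne_one h7
    have h9 : x β = y β := mul_right_cancel₀ hq (h7.trans h8.symm)
    funext l
    rw [h2 l, h5 l, h3, h6, h9]
  have h2 : {x : σ → L | (x i₀ = 1 ∧ form a x = 0 ∧ ∀ l, x l = x α * p l + x β * q l) ∧
      x α ≠ 0}.Finite := by
    have hinj : Set.InjOn (fun x : σ → L => x β / x α)
        {x : σ → L | (x i₀ = 1 ∧ form a x = 0 ∧ ∀ l, x l = x α * p l + x β * q l) ∧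
          x α ≠ 0} := by
      rintro x ⟨⟨h1, -, h2⟩, h3⟩ y ⟨⟨h4, -, h5⟩, h6⟩ hxy
      have hxy' : x β / x α = y β / y α := hxy
      have h7 : x α * (p i₀ + x β / x α * q i₀) = 1 := by
        have h8 := h2 i₀
        rw [h1] at h8
        rw [h8]
        field_simp
      have h8 : y α * (p i₀ + x β / x α * q i₀) = 1 := by
        have h9 := h5 i₀
        rw [h4] at h9
        rw [hxy', h9]
        field_simp
      have h9 : p i₀ + x β / x α * q i₀ ≠ 0 := by
        intro h
        rw [h, mul_zero] at h7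
        exact zero_ne_one h7
      have h10 : x α = y α := mul_right_cancel₀ h9 (h7.trans h8.symm)
      have h11 : x β = y β := by
        rw [h10] at hxy'
        field_simp at hxy'
        exact hxy'
      funext l
      rw [h2 l, h5 l, h10, h11]
    refine Set.Finite.of_finite_image ?_ hinj
    refine ((lineP a p q).roots.toFinset.finite_toSet).subset ?_
    rintro _ ⟨x, ⟨⟨_, h2, h3⟩, h4⟩, rfl⟩
    rw [Finset.mem_coe, Multiset.mem_toFinset, Polynomial.mem_roots hF, Polynomial.IsRoot,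
      lineP_eval]
    have h5 := form_mul 1 (x α)⁻¹ a x
    rw [h2, mul_zero] at h5
    simp only [one_mul] at h5
    rw [← h5]
    congr 1
    funext l
    rw [h3 l]
    field_simp
  refine (h1.union h2).subset ?_
  rintro x ⟨h3, h4, h5⟩
  by_cases h : x α = 0
  · exact Or.inl ⟨⟨h3, h5⟩, h⟩
  · exact Or.inr ⟨⟨h3, h4, h5⟩, h⟩

/-- **Rational points of the intersection**, normalised, over fields. -/
theorem final_line {k₀ L : Type*} [Field k₀] [Field L] [CharZero L] [Algebra k₀ L]
    (hfg : (⊤ : IntermediateField k₀ L).FG)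
    {σ ι : Type*} [Fintype σ] [DecidableEq σ] [Fintype ι] [DecidableEq ι]
    (d : ι → ℕ) (hd : ∀ i, 0 < d i) (a : (i : ι) → Sym σ (d i) → L) (w c : ℕ)
    (hc : (Fintype.card (Ix σ d) : Cardinal) ≤ Algebra.trdeg k₀
      (IntermediateField.adjoin k₀ (Set.range fun p : Ix σ d => a p.1 p.2)) + c)
    (i₀ : σ) (hw1 : 2 * w + 1 + c ≤ ∑ i, (d i + 1)) (hw2 : w + 2 ≤ ∑ i, d i)
    (hw3 : 2 * Fintype.card σ + c ≤ ∑ i, (d i + 1) + 3) :
    {x : σ → L | x i₀ = 1 ∧
      Algebra.trdeg k₀ (IntermediateField.adjoin k₀ (Set.range x)) ≤ w ∧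
      ∀ i, form (a i) x = 0}.Finite := by
  classical
  by_cases hj : ∀ j, j = i₀
  · refine Set.Subsingleton.finite ?_
    rintro x ⟨h1, -⟩ y ⟨h2, -⟩
    funext l
    rw [hj l, h1, h2]
  push Not at hj
  obtain ⟨j₁, hj⟩ := hj
  obtain ⟨T, k, hT, hind, hfin, D, θ, hD, hDk⟩ := reduce hfg d a c hc
  obtain ⟨V, hV, hVb⟩ := bounded_pt d hd a T hind hfin D (fun j => j.1) θ hD (fun j => j.2) hDk
    i₀ j₁ hj w (by omega) hw2 (by omega)
  have := hV
  by_contra hinf
  rw [← Set.Infinite] at hinf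
  set S : Set (σ → L) := {x : σ → L | x i₀ = 1 ∧
      Algebra.trdeg k₀ (IntermediateField.adjoin k₀ (Set.range x)) ≤ w ∧
      ∀ i, form (a i) x = 0} with hS
  have hrank : ∀ x ∈ S, MinorsVanish D x w := by
    rintro x ⟨h1, h2, -⟩
    refine minors_of_trdeg (k := k₀) D ?_ x i₀ h1 w h2
    intro p r
    have h7 : algebraMap k₀ L r = algebraMap k L (algebraMap k₀ k r) :=
      IsScalarTower.algebraMap_apply k₀ k L r
    rw [h7]
    exact hDk p _
  obtain ⟨α, β, p, q, hαβ, hpα, hpβ, hqα, hqβ, hline⟩ := ultra_line (k := k) d hd a D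
    (fun j => j.1) θ hD hDk Finset.univ i₀ j₁ hj w (by
      rw [Finset.sum_add_distrib, Finset.sum_const, smul_eq_mul, mul_one] at hw1
      omega) hw2 V S hinf (by
      intro x hx
      have hx' := hx
      obtain ⟨h1, h2, h3⟩ := hx'
      obtain ⟨G, hG0, hG⟩ := hVb x h1 h3 (hrank x hx)
      exact ⟨h1, fun i _ => h3 i, fun i hi => absurd (Finset.mem_univ i) hi, hrank x hx, G, hG0,
        hG, fun i hi => absurd (Finset.mem_univ i) hi⟩)
  obtain ⟨i, n, hin⟩ := gen_line d a D (fun j => j.1) θ hD α β hαβ p q hpα hpβ hqα hqβ (by omega)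
  have hF : lineP (a i) p q ≠ 0 := by
    intro h0
    apply hin
    rw [← lineP_eval, h0, Polynomial.eval_zero]
  refine hline ((line_finite (a i) α β i₀ p q hF).subset ?_)
  rintro x ⟨⟨h1, _, h3⟩, h4⟩
  exact ⟨h1, h3 i, h4⟩

end Pool.Agent.Helper49.LG
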