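import Pool.Agent.Helper74.LG.KeyAbs

/-!
# The linear algebra of LG-KEY for two-vectors, abstract form

Rows `σ ⊕ ρ`; columns `eul`, `syz (q, j, l) = x_j C_(q,l) - x_l C_(q,j)`, `cvr i`. The bounded
objects are the two-vectors `x ∧ δ`, where `δ_l` is a maximal minor with one column `C_(q,l)`.
-/

set_option autoImplicit false

namespace Pool.Agent.Helper49.LG

open scoped BigOperators
open Pool.Agent.Helper8.LG (exists_minor)
open Pool.Agent.Helper74.LG (scl scl_apply scl_inj Trans left_rows_le sum_single_smul det_tri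
  det_mem exists_basis_part)

section

variable {E : Type*} [Field E] {σ ρ ι S K : Type*}

/-- the columns -/
def kc (f : K → S) (eul : σ ⊕ ρ → E) (syz : S → σ ⊕ ρ → E) (cvr : ι → σ ⊕ ρ → E) :
    (Option K ⊕ ι) → σ ⊕ ρ → E :=
  Sum.elim (fun o : Option K => o.elim eul fun k => syz (f k)) cvr

/-- the rank function of the triangular transformation -/
def krk : (Option K ⊕ ι) → ℕ :=
  Sum.elim (fun o : Option K => o.elim 0 fun _ => 1) fun _ => 2

/-- its diagonal -/
def kg (d : ι → ℕ) (c : E) : (Option K ⊕ ι) → E :=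
  Sum.elim (fun o : Option K => o.elim 1 fun _ => c) fun i => (c ^ d i)⁻¹

theorem k_span {d : ι → ℕ} {c : E} {eul eul' : σ ⊕ ρ → E} {syz syz' : S → σ ⊕ ρ → E}
    {cvr cvr' : ι → σ ⊕ ρ → E} (hT : Trans d c eul eul' syz syz' cvr cvr') (f : K → S)
    (hsp : ∀ s, syz s ∈ Submodule.span E
      (Set.range fun o : Option K => o.elim eul fun k => syz (f k)))
    (hc : c ≠ 0) (s : S) :
    syz' s ∈ Submodule.span E (Set.range fun o : Option K => o.elim eul' fun k => syz' (f k)) := by
  set W := Submodule.span E (Set.range fun o : Option K => o.elim eul' fun k => syz' (f k)) with hW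
  have h0 : eul' ∈ W := Submodule.subset_span ⟨none, rfl⟩
  have h0' : eul ∈ W.map (scl c) := by
    rw [hT.eul_eq]
    exact Submodule.mem_map_of_mem h0
  have h1 : Submodule.span E (Set.range fun o : Option K => o.elim eul fun k => syz (f k)) ≤
      W.map (scl c) := by
    rw [Submodule.span_le]
    rintro _ ⟨o, rfl⟩
    rcases o with _ | k
    · exact h0'
    · obtain ⟨bb, hbb⟩ := hT.syz_eq (f k)
      change syz (f k) ∈ W.map (scl c)
      rw [hbb]
      exact add_mem (Submodule.smul_mem _ _ (Submodule.mem_map_of_mem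
        (Submodule.subset_span ⟨some k, rfl⟩))) (Submodule.smul_mem _ _ h0')
  obtain ⟨bb, hbb⟩ := hT.syz_eq s
  have h2 := h1 (hsp s)
  have h3 : c • scl c (syz' s) ∈ W.map (scl c) := by
    have h4 := sub_mem h2 (Submodule.smul_mem _ bb h0')
    rwa [hbb, add_sub_cancel_right] at h4
  have h5 : scl c (syz' s) ∈ W.map (scl c) := by
    have h6 := Submodule.smul_mem _ c⁻¹ h3
    rwa [smul_smul, inv_mul_cancel₀ hc, one_smul] at h6
  obtain ⟨y, hy, hy2⟩ := h5
  rw [← scl_inj hc hy2]
  exact hy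

theorem k_exists_T [Fintype ι] [Fintype K] {d : ι → ℕ} {c : E} {eul eul' : σ ⊕ ρ → E}
    {syz syz' : S → σ ⊕ ρ → E} {cvr cvr' : ι → σ ⊕ ρ → E}
    (hT : Trans d c eul eul' syz syz' cvr cvr')
    (f : K → S) [DecidableEq (Option K ⊕ ι)]
    (hsp : ∀ s, syz s ∈ Submodule.span E
      (Set.range fun o : Option K => o.elim eul fun k => syz (f k)))
    (hc : c ≠ 0) (t : Option K ⊕ ι) :
    ∃ τ : (Option K ⊕ ι) → E,
      kc f eul syz cvr t = ∑ t', τ t' • scl c (kc f eul' syz' cvr' t') ∧
      τ t = kg d c t ∧ ∀ t', t' ≠ t → krk t ≤ krk t' → τ t' = 0 := by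
  set N : Option K ⊕ ι := Sum.inl none with hN
  have hN1 : scl c (kc f eul' syz' cvr' N) = eul := hT.eul_eq.symm
  rcases t with o | i
  · rcases o with _ | k
    · refine ⟨Pi.single N 1, ?_, ?_, ?_⟩
      · rw [sum_single_smul, one_smul, hN1]
        rfl
      · rw [← hN, Pi.single_eq_same]
        rfl
      · intro t' ht _
        rw [Pi.single_eq_of_ne ht]
    · obtain ⟨bb, hbb⟩ := hT.syz_eq (f k)
      have hne : (Sum.inl (some k) : Option K ⊕ ι) ≠ N := by
        intro h
        have h1 := Sum.inl_injective h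
        cases h1
      refine ⟨Pi.single (Sum.inl (some k)) c + Pi.single N bb, ?_, ?_, ?_⟩
      · simp only [Pi.add_apply, add_smul, Finset.sum_add_distrib, sum_single_smul]
        rw [hN1]
        exact hbb
      · rw [Pi.add_apply, Pi.single_eq_same, Pi.single_eq_of_ne hne, add_zero]
        rfl
      · intro t' ht hrk
        have h1 : t' ≠ N := by
          intro h
          rw [h] at hrk
          change 1 ≤ 0 at hrk
          omega
        rw [Pi.add_apply, Pi.single_eq_of_ne ht, Pi.single_eq_of_ne h1, add_zero]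
  · obtain ⟨y, hy, bb, hbb⟩ := hT.cvr_eq i
    have h2 : Submodule.span E (Set.range syz') ≤
        Submodule.span E (Set.range fun o : Option K => o.elim eul' fun k => syz' (f k)) := by
      rw [Submodule.span_le]
      rintro _ ⟨s, rfl⟩
      exact k_span hT f hsp hc s
    obtain ⟨cf, hcf⟩ := (Submodule.mem_span_range_iff_exists_fun E).1 (h2 hy)
    have h5 : kc f eul syz cvr (Sum.inr i) =
        (c ^ d i)⁻¹ • scl c (kc f eul' syz' cvr' (Sum.inr i)) +
          ∑ o : Option K, cf o • scl c (kc f eul' syz' cvr' (Sum.inl o)) +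
            bb • scl c (kc f eul' syz' cvr' N) := by
      rw [hN1]
      have h6 : scl c y = ∑ o : Option K, cf o • scl c (kc f eul' syz' cvr' (Sum.inl o)) := by
        rw [← hcf, map_sum]
        simp only [map_smul]
        rfl
      rw [← h6]
      exact hbb
    have hNr : (Sum.inr i : Option K ⊕ ι) ≠ N := Sum.inr_ne_inl
    refine ⟨Pi.single (Sum.inr i) (c ^ d i)⁻¹ + Sum.elim cf 0 + Pi.single N bb, ?_, ?_, ?_⟩
    · simp only [Pi.add_apply, add_smul, Finset.sum_add_distrib, sum_single_smul]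
      rw [h5]
      congr 2
      rw [Fintype.sum_sum_type]
      simp
    · rw [Pi.add_apply, Pi.add_apply, Pi.single_eq_same, Pi.single_eq_of_ne hNr, add_zero]
      simp [kg]
    · intro t' ht hrk
      rcases t' with o | i'
      · exfalso
        rcases o with _ | k
        · change 2 ≤ 0 at hrk
          omega
        · change 2 ≤ 1 at hrk
          omega
      · have h7 : (Sum.inr i' : Option K ⊕ ι) ≠ N := Sum.inr_ne_inl
        rw [Pi.add_apply, Pi.add_apply, Pi.single_eq_of_ne ht, Pi.single_eq_of_ne h7]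
        simp

theorem k_prod [Fintype ι] [Fintype K] (d : ι → ℕ) (c : E) (hc : c ≠ 0) :
    (∏ t, kg (K := K) d c t) * c ^ ∑ i, d i = c ^ Fintype.card K := by
  rw [Fintype.prod_sum_type, Fintype.prod_option]
  have h1 : ∏ i : ι, kg (K := K) d c (Sum.inr i) = (c ^ ∑ i, d i)⁻¹ := by
    rw [← Finset.prod_pow_eq_pow_sum, ← Finset.prod_inv_distrib]
    rfl
  have h2 : ∏ k : K, kg (ι := ι) d c (Sum.inl (some k)) = c ^ Fintype.card K := by
    have h5 : ∀ k : K, kg (ι := ι) d c (Sum.inl (some k)) = c := fun _ => rfl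
    simp only [h5, Finset.prod_const, Finset.card_univ]
  have h3 : kg (ι := ι) (K := K) d c (Sum.inl none) = 1 := rfl
  have h4 : c ^ ∑ i, d i ≠ 0 := pow_ne_zero _ hc
  rw [h1, h2, h3, one_mul, mul_assoc, inv_mul_cancel₀ h4, mul_one]

end

/-- The number of `x`-rows and of other rows of a minor. -/
def nlft {κ σ ρ : Type*} [Fintype κ] (r : κ → σ ⊕ ρ) : ℕ :=
  (Finset.univ.filter fun s => (r s).isLeft = true).card

/-- **The transformed minor.** `G c^(∑ d_i) = c^(n' + |K|) N`, `N` integral up to a power of `Δ`. -/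
theorem k_minor {E : Type*} [Field E] {σ ρ ι S K : Type*} [Fintype σ] [Fintype ρ] [Fintype ι]
    [Fintype K] [DecidableEq (Option K ⊕ ι)] (d : ι → ℕ) (f : K → S)
    (eul : σ ⊕ ρ → E) (syz : S → σ ⊕ ρ → E) (cvr : ι → σ ⊕ ρ → E)
    (hsp : ∀ s, syz s ∈ Submodule.span E
      (Set.range fun o : Option K => o.elim eul fun k => syz (f k)))
    (r : (Option K ⊕ ι) → σ ⊕ ρ)
    (O : ValuationSubring E) (Δ c : E) (eul' : σ ⊕ ρ → E)
    (syz' : S → σ ⊕ ρ → E) (cvr' : ι → σ ⊕ ρ → E) (hc : c ≠ 0)
    (hTr : Trans d c eul eul' syz syz' cvr cvr')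
    (he1 : ∀ l, Δ * eul' l ∈ O) (he2 : ∀ s l, Δ * syz' s l ∈ O)
    (he3 : ∀ i l, Δ * cvr' i l ∈ O) :
    ∃ N : E, Δ ^ Fintype.card (Option K ⊕ ι) * N ∈ O ∧
      Matrix.det (Matrix.of fun s t => kc f eul syz cvr t (r s)) * c ^ ∑ i, d i =
        c ^ (nlft r + Fintype.card K) * N := by
  choose τ hτ1 hτ2 hτ3 using k_exists_T hTr f hsp hc
  set Kt := kc f eul' syz' cvr' with hKt
  set rf : σ ⊕ ρ → E := Sum.elim (fun _ => c) (fun _ => 1) with hrf
  set N : Matrix (Option K ⊕ ι) (Option K ⊕ ι) E := Matrix.of fun s t => Kt t (r s) with hN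
  set T : Matrix (Option K ⊕ ι) (Option K ⊕ ι) E := Matrix.of fun t' t => τ t t' with hT
  have hTdet : T.det = ∏ t, kg d c t :=
    det_tri T krk _ (fun t => hτ2 t) fun t' t h1 h2 => hτ3 t t' h1 h2
  have hmat : (Matrix.of fun s t => kc f eul syz cvr t (r s)) =
      (Matrix.of fun s t' => rf (r s) * N s t') * T := by
    ext s t
    rw [Matrix.mul_apply, Matrix.of_apply, hτ1 t, Finset.sum_apply]
    refine Finset.sum_congr rfl fun t' _ => ?_
    rw [Pi.smul_apply, smul_eq_mul, scl_apply]
    simp only [hN, hT, Matrix.of_apply]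
    change _ * (rf (r s) * Kt t' (r s)) = _
    ring
  refine ⟨N.det, ?_, ?_⟩
  · rw [← Matrix.det_smul]
    refine det_mem O.toSubring _ fun s t => ?_
    rw [Matrix.smul_apply, smul_eq_mul]
    change Δ * Kt t (r s) ∈ O
    rcases t with o | i'
    · rcases o with _ | k
      · exact he1 _
      · exact he2 _ _
    · exact he3 i' _
  · rw [hmat, Matrix.det_mul, Matrix.det_mul_column, hTdet, mul_assoc, k_prod d c hc]
    have h1 : ∏ s, rf (r s) = c ^ nlft r := by
      rw [nlft, ← Finset.prod_const, Finset.prod_filter]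
      refine Finset.prod_congr rfl fun s _ => ?_
      rcases h : r s with l | i <;> simp [hrf]
    rw [h1]
    ring

end Pool.Agent.Helper49.LG
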