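import Pool.Agent.Helper8.LG.KeyFun

/-!
# A derivation which kills few given elements and moves the forms

If fewer than `∑ (d_i + 1)` conditions are imposed, there is a combination `δ` of the `D_s`, `s` the
monomials in two variables `x_α, x_β`, which kills the given elements and acts on the coefficients
by a non-zero family of binary forms.
-/

set_option autoImplicit false

namespace Pool.Agent.Helper49.LG

open scoped BigOperators
open Pool.Agent.Helper8.LG

section

variable {σ ι : Type*}

/-- the monomial `x_α ^ (n - r) x_β ^ r` -/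
def ab (α β : σ) (n : ℕ) (r : Fin (n + 1)) : Sym σ n :=
  ⟨Multiset.replicate (n - r) α + Multiset.replicate r β, by
    rw [Multiset.card_add, Multiset.card_replicate, Multiset.card_replicate]
    have := r.2
    omega⟩

theorem mon_ab {R : Type*} [CommMonoid R] (x : σ → R) (α β : σ) (n : ℕ) (r : Fin (n + 1)) :
    mon x (ab α β n r) = x α ^ (n - r) * x β ^ (r : ℕ) := by
  change ((Multiset.replicate (n - r) α + Multiset.replicate (r : ℕ) β).map x).prod = _
  rw [Multiset.map_add, Multiset.prod_add, Multiset.map_replicate, Multiset.map_replicate,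
    Multiset.prod_replicate, Multiset.prod_replicate]

/-- the corresponding index -/
def abi (d : ι → ℕ) (α β : σ) (s : Σ i : ι, Fin (d i + 1)) : Ix σ d := ⟨s.1, ab α β (d s.1) s.2⟩

end

/-- **The killer derivation.** -/
theorem exists_killer {E : Type*} [Field E] {σ ι τ κ : Type*} [Fintype σ] [DecidableEq σ]
    [Fintype ι] [DecidableEq ι] [Fintype τ] [Fintype κ] (d : ι → ℕ)
    (a : (i : ι) → Sym σ (d i) → E) (D : Ix σ d → Derivation ℤ E E)
    (jj : τ → Ix σ d) (θ : τ → Ix σ d → E) (hD : Dual d a D jj θ) (α β : σ) (z : κ → E)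
    (hcard : Fintype.card κ + Fintype.card τ < ∑ i, (d i + 1)) :
    ∃ (f : (i : ι) → Fin (d i + 1) → E) (δ : Derivation ℤ E E), (∃ i r, f i r ≠ 0) ∧
      (∀ m, δ (z m) = 0) ∧ ∀ (i : ι) (x : σ → E), (∀ l, δ (x l) = 0) →
        δ (form (a i) x) = ∑ r : Fin (d i + 1), f i r * (x α ^ (d i - r) * x β ^ (r : ℕ)) := by
  classical
  set Λ : ((Σ i : ι, Fin (d i + 1)) → E) →ₗ[E] (κ ⊕ τ → E) :=
    { toFun := fun f => Sum.elim (fun m => ∑ s, f s * D (abi d α β s) (z m))
        fun j => ∑ s, f s * θ j (abi d α β s)
      map_add' := fun f g => by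
        funext t
        rcases t with m | j <;> simp [add_mul, Finset.sum_add_distrib]
      map_smul' := fun c f => by
        funext t
        rcases t with m | j <;> simp [Finset.mul_sum, mul_assoc] } with hΛ
  have hker : LinearMap.ker Λ ≠ ⊥ := by
    apply LinearMap.ker_ne_bot_of_finrank_lt
    rw [Module.finrank_fintype_fun_eq_card, Module.finrank_fintype_fun_eq_card, Fintype.card_sum,
      Fintype.card_sigma]
    simpa using hcard
  obtain ⟨f, hf, hf0⟩ := (Submodule.ne_bot_iff _).1 hker
  have hf1 : ∀ m, ∑ s, f s * D (abi d α β s) (z m) = 0 := fun m =>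
    congrFun (LinearMap.mem_ker.1 hf) (Sum.inl m)
  have hf2 : ∀ j, ∑ s, f s * θ j (abi d α β s) = 0 := fun j =>
    congrFun (LinearMap.mem_ker.1 hf) (Sum.inr j)
  set δ : Derivation ℤ E E := ∑ s, f s • D (abi d α β s) with hδ
  have hδa : ∀ y, δ y = ∑ s, f s * D (abi d α β s) y := by
    intro y
    have h1 : δ y = (Derivation.coeFnAddMonoidHom δ) y := rfl
    rw [h1, hδ, map_sum, Finset.sum_apply]
    rfl
  have hδq : ∀ q : Ix σ d, δ (a q.1 q.2) = ∑ s, if abi d α β s = q then f s else 0 := by
    intro q
    rw [hδa]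
    have h1 : ∀ s, f s * D (abi d α β s) (a q.1 q.2) = (if abi d α β s = q then f s else 0) -
        ∑ j, if jj j = q then f s * θ j (abi d α β s) else 0 := by
      intro s
      rw [hD (abi d α β s) q, mul_sub, mul_ite, mul_one, mul_zero, Finset.mul_sum]
      congr 1
      exact Finset.sum_congr rfl fun j _ => by rw [mul_ite, mul_zero]
    rw [Finset.sum_congr rfl fun s _ => h1 s, Finset.sum_sub_distrib, Finset.sum_comm]
    have h2 : ∑ j, ∑ s, (if jj j = q then f s * θ j (abi d α β s) else 0) = 0 := by
      refine Finset.sum_eq_zero fun j _ => ?_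
      split_ifs
      · exact hf2 j
      · exact Finset.sum_const_zero
    rw [h2, sub_zero]
  refine ⟨fun i r => f ⟨i, r⟩, δ, ?_, fun m => by rw [hδa]; exact hf1 m, ?_⟩
  · by_contra h
    push Not at h
    exact hf0 (funext fun s => h s.1 s.2)
  · intro i x hx
    obtain ⟨g, hg, _⟩ := kf_grad_form (a i) x
    rw [hg δ, Finset.sum_eq_zero (s := Finset.univ) (f := fun l => g l * δ (x l))
      (fun l _ => by rw [hx, mul_zero]), add_zero]
    have h1 : ∀ J : Sym σ (d i), δ (a i J) * mon x J =
        ∑ s, if abi d α β s = ⟨i, J⟩ then f s * mon x J else 0 := by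
      intro J
      rw [hδq ⟨i, J⟩, Finset.sum_mul]
      exact Finset.sum_congr rfl fun s _ => by rw [ite_mul, zero_mul]
    rw [Finset.sum_congr rfl fun J _ => h1 J, Finset.sum_comm, ← Finset.univ_sigma_univ,
      Finset.sum_sigma, Finset.sum_eq_single i]
    · refine Finset.sum_congr rfl fun r _ => ?_
      rw [Finset.sum_eq_single (ab α β (d i) r)]
      · rw [if_pos (show abi d α β ⟨i, r⟩ = ⟨i, ab α β (d i) r⟩ from rfl), mon_ab]
      · intro J _ hJ
        rw [if_neg]
        intro h
        apply hJ
        unfold abi at h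
        rw [Sigma.mk.injEq] at h
        exact (eq_of_heq h.2).symm
      · intro h
        exact absurd (Finset.mem_univ _) h
    · intro i' _ hi'
      refine Finset.sum_eq_zero fun r _ => Finset.sum_eq_zero fun J _ => ?_
      rw [if_neg]
      intro h
      exact hi' (congrArg Sigma.fst h)
    · intro h
      exact absurd (Finset.mem_univ _) h

end Pool.Agent.Helper49.LG
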